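import Mathlib
import Pool.Agent.Helper227.Use

/-!
The Liouville number attached to an infinite binary sequence.
-/

set_option autoImplicit false

namespace Pool.Agent.TH743.LF

open Pool.Agent.Helper227

/-- one step of the numerator: `(i, A) ↦ (i + 1, A * 10 ^ ((i+1)! - i!) + (2 or 3))` -/
def stp (s : ℕ × ℕ) (b : Bool) : ℕ × ℕ :=
  (s.1 + 1, s.2 * 10 ^ ((s.1 + 1).factorial - s.1.factorial) + (2 + b.toNat))

/-- the numerator of the approximation -/
def AA (σ : List Bool) : ℕ × ℕ := σ.foldl stp (0, 0)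

theorem AA_append (σ : List Bool) (b : Bool) : AA (σ ++ [b]) = stp (AA σ) b := by
  simp [AA]

theorem AA_fst (σ : List Bool) : (AA σ).1 = σ.length := by
  induction σ using List.reverseRecOn with
  | nil => rfl
  | append_singleton σ b ih => rw [AA_append, stp]; simp [ih]

/-- the approximation -/
noncomputable def xx (Z : ℕ → Bool) (n : ℕ) : ℝ := ((AA (pre Z n)).2 : ℝ) / 10 ^ n.factorial

theorem AA_succ (Z : ℕ → Bool) (n : ℕ) : (AA (pre Z (n + 1))).2 =
    (AA (pre Z n)).2 * 10 ^ ((n + 1).factorial - n.factorial) + (2 + (Z n).toNat) := by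
  rw [pre_succ, AA_append, stp, AA_fst]
  simp

theorem fact_le (n : ℕ) : n.factorial ≤ (n + 1).factorial := Nat.factorial_le (Nat.le_succ n)

theorem xx_succ (Z : ℕ → Bool) (n : ℕ) :
    xx Z (n + 1) = xx Z n + (2 + ((Z n).toNat : ℝ)) / 10 ^ (n + 1).factorial := by
  unfold xx
  rw [AA_succ]
  push_cast
  have h : (10 : ℝ) ^ (n + 1).factorial =
      10 ^ ((n + 1).factorial - n.factorial) * 10 ^ n.factorial := by
    rw [← pow_add, Nat.sub_add_cancel (fact_le n)]
  have h1 : (10 : ℝ) ^ ((n + 1).factorial - n.factorial) ≠ 0 := by positivity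
  have h2 : (10 : ℝ) ^ n.factorial ≠ 0 := by positivity
  rw [h]
  field_simp

/-- the upper approximation -/
noncomputable def yy (Z : ℕ → Bool) (n : ℕ) : ℝ := xx Z n + 4 / 10 ^ (n + 1).factorial

theorem pow_fact_le (n : ℕ) : (10 : ℝ) * 10 ^ n.factorial ≤ 10 ^ ((n + 1).factorial) * (if n = 0 then 10 else 1) := by
  split_ifs with h
  · subst h; norm_num
  · have h1 : n.factorial + 1 ≤ (n + 1).factorial := by
      rw [Nat.factorial_succ]
      have h2 := Nat.factorial_pos n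
      have h3 : 1 ≤ n := by omega
      nlinarith
    calc (10 : ℝ) * 10 ^ n.factorial = 10 ^ (n.factorial + 1) := by ring
      _ ≤ 10 ^ ((n + 1).factorial) := pow_le_pow_right₀ (by norm_num) h1
      _ = _ := by ring

theorem pow_fact_le' (n : ℕ) : (10 : ℝ) * 10 ^ (n + 1).factorial ≤ 10 ^ ((n + 2).factorial) := by
  have := pow_fact_le (n + 1)
  simpa using this

theorem toNat_le (b : Bool) : ((b.toNat : ℕ) : ℝ) ≤ 1 := by cases b <;> simp

theorem tail_small (n : ℕ) : (4 : ℝ) / 10 ^ (n + 2).factorial < 1 / 10 ^ (n + 1).factorial := by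
  have h := pow_fact_le' n
  have h1 : (0 : ℝ) < 10 ^ (n + 1).factorial := by positivity
  rw [div_lt_div_iff₀ (by positivity) h1]
  nlinarith

theorem yy_succ_lt (Z : ℕ → Bool) (n : ℕ) :
    yy Z (n + 1) < xx Z n + (3 + ((Z n).toNat : ℝ)) / 10 ^ (n + 1).factorial := by
  unfold yy
  rw [xx_succ]
  have := tail_small n
  have e : (3 + ((Z n).toNat : ℝ)) / 10 ^ (n + 1).factorial =
      (2 + ((Z n).toNat : ℝ)) / 10 ^ (n + 1).factorial + 1 / 10 ^ (n + 1).factorial := by ring
  rw [e]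
  linarith

theorem yy_succ_le (Z : ℕ → Bool) (n : ℕ) : yy Z (n + 1) ≤ yy Z n := by
  refine (yy_succ_lt Z n).le.trans ?_
  unfold yy
  have := toNat_le (Z n)
  have h : (3 + ((Z n).toNat : ℝ)) / 10 ^ (n + 1).factorial ≤ 4 / 10 ^ (n + 1).factorial :=
    div_le_div_of_nonneg_right (by linarith) (by positivity)
  linarith

theorem xx_lt_succ (Z : ℕ → Bool) (n : ℕ) : xx Z n < xx Z (n + 1) := by
  rw [xx_succ]
  have : 0 < (2 + ((Z n).toNat : ℝ)) / 10 ^ (n + 1).factorial := by positivity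
  linarith

theorem xx_mono (Z : ℕ → Bool) : StrictMono (xx Z) := strictMono_nat_of_lt_succ (xx_lt_succ Z)

theorem yy_anti (Z : ℕ → Bool) : Antitone (yy Z) := antitone_nat_of_succ_le (yy_succ_le Z)

theorem xx_lt_yy (Z : ℕ → Bool) (n : ℕ) : xx Z n < yy Z n := by
  unfold yy
  have : (0 : ℝ) < 4 / 10 ^ (n + 1).factorial := by positivity
  linarith

theorem xx_le_yy (Z : ℕ → Bool) (m n : ℕ) : xx Z m ≤ yy Z n := by
  rcases le_total m n with h | h
  · exact ((xx_mono Z).monotone h).trans (xx_lt_yy Z n).le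
  · exact (xx_lt_yy Z m).le.trans (yy_anti Z h)

/-- the real number -/
noncomputable def al (Z : ℕ → Bool) : ℝ := ⨆ n, xx Z n

theorem bdd (Z : ℕ → Bool) : BddAbove (Set.range (xx Z)) :=
  ⟨yy Z 0, by rintro _ ⟨n, rfl⟩; exact xx_le_yy Z n 0⟩

theorem xx_lt_al (Z : ℕ → Bool) (n : ℕ) : xx Z n < al Z :=
  (xx_lt_succ Z n).trans_le (le_ciSup (bdd Z) (n + 1))

theorem al_le_yy (Z : ℕ → Bool) (n : ℕ) : al Z ≤ yy Z n := ciSup_le fun m => xx_le_yy Z m n

theorem dist_le (Z : ℕ → Bool) (n : ℕ) : |al Z - xx Z n| ≤ 4 / 10 ^ (n + 1).factorial := by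
  have h1 := xx_lt_al Z n
  have h2 := al_le_yy Z n
  unfold yy at h2
  rw [abs_le]
  constructor <;> linarith

theorem xx_zero (Z : ℕ → Bool) : xx Z 0 = 0 := by simp [xx, pre, AA]

theorem xx_nonneg (Z : ℕ → Bool) (n : ℕ) : 0 ≤ xx Z n := by unfold xx; positivity

theorem al_pos (Z : ℕ → Bool) : 0 < al Z := by
  have := xx_lt_al Z 0
  rwa [xx_zero] at this

theorem yy_zero (Z : ℕ → Bool) : yy Z 0 = 2 / 5 := by
  unfold yy
  rw [xx_zero]
  norm_num

theorem al_le_one (Z : ℕ → Bool) : al Z ≤ 1 := by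
  have := al_le_yy Z 0
  rw [yy_zero] at this
  linarith

theorem xx_le_one (Z : ℕ → Bool) (n : ℕ) : xx Z n ≤ 1 := (xx_lt_al Z n).le.trans (al_le_one Z)

/-- decoding -/
theorem decode_iff (Z : ℕ → Bool) (n : ℕ) :
    Z n = true ↔ xx Z n + 3 / 10 ^ (n + 1).factorial < al Z := by
  constructor
  · intro h
    have h1 := xx_lt_al Z (n + 1)
    rw [xx_succ, h] at h1
    have e : (2 + ((true.toNat : ℕ) : ℝ)) = 3 := by norm_num
    rw [e] at h1
    exact h1
  · intro h
    by_contra hf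
    rw [Bool.not_eq_true] at hf
    have h1 := (al_le_yy Z (n + 1)).trans_lt (yy_succ_lt Z n)
    rw [hf] at h1
    have e : (3 + ((false.toNat : ℕ) : ℝ)) = 3 := by norm_num
    rw [e] at h1
    exact absurd h (not_lt.2 h1.le)

theorem liouville (Z : ℕ → Bool) : Liouville (al Z) := by
  intro n
  refine ⟨(AA (pre Z n)).2, 10 ^ n.factorial, ?_, ?_, ?_⟩
  · exact one_lt_pow₀ (by norm_num) (Nat.factorial_pos n).ne'
  · have h := xx_lt_al Z n
    unfold xx at h
    push_cast
    exact h.ne'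
  · have h := dist_le Z n
    unfold xx at h
    push_cast
    refine h.trans_lt ?_
    have e : (10 : ℝ) ^ (n + 1).factorial = (10 ^ n.factorial) ^ n * 10 ^ n.factorial := by
      rw [← pow_succ, ← pow_mul, Nat.factorial_succ, mul_comm]
    rw [e]
    have h4 : (4 : ℝ) < 10 ^ n.factorial := by
      calc (4 : ℝ) < 10 ^ 1 := by norm_num
        _ ≤ 10 ^ n.factorial := pow_le_pow_right₀ (by norm_num) (Nat.factorial_pos n)
    have h5 : (0 : ℝ) < (10 ^ n.factorial) ^ n := by positivity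
    rw [div_lt_div_iff₀ (by positivity) h5]
    nlinarith

theorem transc (Z : ℕ → Bool) : Transcendental ℤ (al Z) := (liouville Z).transcendental

end Pool.Agent.TH743.LF
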