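import Mathlib
import Pool.Agent.TH743.LF.A
import Pool.Agent.H269R3.CF.Main
import Pool.Agent.Helper227.RD.Jump

/-!
The sign of integer polynomials at the Liouville number: `Σ₁` in the sequence.
-/

set_option autoImplicit false

namespace Pool.Agent.TH743.LF

open Encodable
open Pool.Agent.Helper227
open Pool.Agent.H269R3.CF
open Pool.Agent.Helper566.FD (Pol wv pv mulP negP pv_append pv_negP pv_mulP comp_poly)
open Pool.Agent.Helper566.FD.J4 (pv_nil pv_cons)
open Pool.Agent.Helper566.FD.J10 (j10_comp_foldl)
open Pool.Agent.Helper566.FD.J7 (prim_int_add prim_int_mul prim_int_le)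

theorem wv_const (x : ℝ) (w : List ℕ) : wv (fun _ => x) w = x ^ w.length := by
  simp [wv]

theorem aeval_pol' (x : ℝ) (q : Pol) : Polynomial.aeval x (pol q) = pv (fun _ => x) q := by
  induction q with
  | nil => simp [pol_nil, pv]
  | cons m q ih =>
    rw [pol_cons, map_add, ih, pv_cons, wv_const]
    simp

theorem z0_iff' {x : ℝ} (htr : Transcendental ℤ x) (q : Pol) :
    z0 q = true ↔ pv (fun _ => x) q = 0 := by
  rw [← aeval_pol' x q]
  have h1 : Polynomial.aeval x (pol q) = 0 ↔ pol q = 0 := by
    constructor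
    · intro h0
      exact (transcendental_iff.1 htr) _ h0
    · intro h0; rw [h0, map_zero]
  rw [h1]
  unfold z0
  rw [List.all_eq_true]
  constructor
  · intro h2
    ext k
    rw [coeff_pol, Polynomial.coeff_zero]
    by_cases hk : ∃ m ∈ q, m.2.length = k
    · obtain ⟨m, hm, rfl⟩ := hk
      simpa using h2 m hm
    · unfold cf
      rw [List.filter_eq_nil_iff.2]
      · rfl
      · intro m hm hmk
        exact hk ⟨m, hm, by simpa using hmk⟩
  · intro h2 m _
    rw [decide_eq_true_iff, ← coeff_pol, h2, Polynomial.coeff_zero]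

/-- total length of the words -/
def dgr (p : Pol) : ℕ := p.foldl (fun s m => s + m.2.length) 0

/-- a Lipschitz constant on `[0, 1]` -/
def lip (p : Pol) : ℕ := p.foldl (fun s m => s + m.1.natAbs * m.2.length) 0

/-- `Q ^ D * p (A / Q)` -/
def hv (A Q D : ℕ) (p : Pol) : ℤ :=
  p.foldl (fun s m => s + m.1 * ((A ^ m.2.length * Q ^ (D - m.2.length) : ℕ) : ℤ)) 0

theorem foldl_add {β M : Type} [AddCommMonoid M] (f : β → M) (l : List β) : ∀ s : M,
    l.foldl (fun s m => s + f m) s = s + (l.map f).sum := by
  induction l with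
  | nil => intro s; simp
  | cons a l ih => intro s; simp [ih, add_assoc]

theorem dgr_eq (p : Pol) : dgr p = (p.map fun m => m.2.length).sum := by
  rw [dgr, foldl_add, zero_add]

theorem lip_eq (p : Pol) : lip p = (p.map fun m => m.1.natAbs * m.2.length).sum := by
  rw [lip, foldl_add (fun m : ℤ × List ℕ => m.1.natAbs * m.2.length), zero_add]

theorem hv_eq (A Q D : ℕ) (p : Pol) : hv A Q D p =
    (p.map fun m => m.1 * ((A ^ m.2.length * Q ^ (D - m.2.length) : ℕ) : ℤ)).sum := by
  rw [hv, foldl_add (fun m : ℤ × List ℕ =>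
    m.1 * ((A ^ m.2.length * Q ^ (D - m.2.length) : ℕ) : ℤ)), zero_add]

theorem hv_real (A Q D : ℕ) (hQ : 0 < Q) (p : Pol) (hD : ∀ m ∈ p, m.2.length ≤ D) :
    (hv A Q D p : ℝ) = (Q : ℝ) ^ D * pv (fun _ => (A : ℝ) / Q) p := by
  rw [hv_eq]
  induction p with
  | nil => simp [pv]
  | cons m p ih =>
    have h1 := ih fun m' hm' => hD m' (List.mem_cons_of_mem _ hm')
    have h2 := hD m List.mem_cons_self
    rw [List.map_cons, List.sum_cons, pv_cons, wv_const]
    push_cast at h1 ⊢
    rw [h1, mul_add]
    congr 1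
    have e : (Q : ℝ) ^ D = Q ^ (D - m.2.length) * Q ^ m.2.length := by
      rw [← pow_add, Nat.sub_add_cancel h2]
    have hq : (Q : ℝ) ≠ 0 := by positivity
    rw [e, div_pow]
    field_simp

theorem le_dgr (p : Pol) : ∀ m ∈ p, m.2.length ≤ dgr p := by
  intro m hm
  rw [dgr_eq]
  exact List.single_le_sum (by simp) _ (List.mem_map.2 ⟨m, hm, rfl⟩)

theorem pow_lip {a b : ℝ} (ha : 0 ≤ a) (ha1 : a ≤ 1) (hb : 0 ≤ b) (hb1 : b ≤ 1) (k : ℕ) :
    |a ^ k - b ^ k| ≤ k * |a - b| := by
  induction k with
  | zero => simp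
  | succ k ih =>
    have e : a ^ (k + 1) - b ^ (k + 1) = a * (a ^ k - b ^ k) + (a - b) * b ^ k := by ring
    rw [e]
    refine (abs_add_le _ _).trans ?_
    rw [abs_mul, abs_mul, abs_of_nonneg ha, abs_of_nonneg (pow_nonneg hb k)]
    have h1 : a * |a ^ k - b ^ k| ≤ 1 * |a ^ k - b ^ k| :=
      mul_le_mul_of_nonneg_right ha1 (abs_nonneg _)
    have h2 : |a - b| * b ^ k ≤ |a - b| * 1 :=
      mul_le_mul_of_nonneg_left (pow_le_one₀ hb hb1) (abs_nonneg _)
    push_cast
    linarith

theorem pv_lip {a b : ℝ} (ha : 0 ≤ a) (ha1 : a ≤ 1) (hb : 0 ≤ b) (hb1 : b ≤ 1) (p : Pol) :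
    |pv (fun _ => a) p - pv (fun _ => b) p| ≤ lip p * |a - b| := by
  rw [lip_eq]
  induction p with
  | nil => simp [pv]
  | cons m p ih =>
    rw [pv_cons, pv_cons, wv_const, wv_const, List.map_cons, List.sum_cons]
    have e : (m.1 : ℝ) * a ^ m.2.length + pv (fun _ => a) p -
        (m.1 * b ^ m.2.length + pv (fun _ => b) p) =
        m.1 * (a ^ m.2.length - b ^ m.2.length) + (pv (fun _ => a) p - pv (fun _ => b) p) := by
      ring
    rw [e]
    refine (abs_add_le _ _).trans ?_
    push_cast at ih ⊢
    rw [add_mul]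
    refine add_le_add ?_ ih
    rw [abs_mul, mul_assoc]
    have h : |(m.1 : ℝ)| = ((m.1.natAbs : ℕ) : ℝ) := by
      rw [Nat.cast_natAbs, Int.cast_abs]
    rw [h]
    exact mul_le_mul_of_nonneg_left (pow_lip ha ha1 hb hb1 _) (Nat.cast_nonneg _)

/-- the condition which certifies positivity -/
def cnd (σ : List Bool) (p : Pol) : Prop :=
  ((4 * lip p * (10 ^ σ.length.factorial) ^ dgr p : ℕ) : ℤ) <
    hv (AA σ).2 (10 ^ σ.length.factorial) (dgr p) p * ((10 ^ (σ.length + 1).factorial : ℕ) : ℤ)

theorem cnd_iff (Z : ℕ → Bool) (n : ℕ) (p : Pol) : cnd (pre Z n) p ↔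
    4 * (lip p : ℝ) / 10 ^ (n + 1).factorial < pv (fun _ => xx Z n) p := by
  unfold cnd
  rw [length_pre]
  have h := hv_real (AA (pre Z n)).2 (10 ^ n.factorial) (dgr p) (by positivity) p (le_dgr p)
  have hx : ((AA (pre Z n)).2 : ℝ) / ((10 ^ n.factorial : ℕ) : ℝ) = xx Z n := by
    unfold xx; push_cast; rfl
  rw [hx] at h
  rw [← Int.cast_lt (R := ℝ)]
  push_cast at h ⊢
  rw [h, div_lt_iff₀ (by positivity)]
  have hQ : (0 : ℝ) < (10 ^ n.factorial) ^ dgr p := by positivity
  constructor
  · intro h1
    have h2 : (10 ^ n.factorial) ^ dgr p * (4 * (lip p : ℝ)) <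
        (10 ^ n.factorial) ^ dgr p * (pv (fun _ => xx Z n) p * 10 ^ (n + 1).factorial) := by
      calc _ = 4 * (lip p : ℝ) * (10 ^ n.factorial) ^ dgr p := by ring
        _ < _ := h1
        _ = _ := by ring
    exact lt_of_mul_lt_mul_left h2 hQ.le
  · intro h1
    have h2 := mul_lt_mul_of_pos_left h1 hQ
    calc _ = (10 ^ n.factorial) ^ dgr p * (4 * (lip p : ℝ)) := by ring
      _ < _ := h2
      _ = _ := by ring

theorem le_fact (n : ℕ) : n ≤ n.factorial := Nat.self_le_factorial n

theorem pos_iff (Z : ℕ → Bool) (p : Pol) :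
    0 < pv (fun _ => al Z) p ↔ ∃ n, cnd (pre Z n) p := by
  have hl : ∀ n, |pv (fun _ => al Z) p - pv (fun _ => xx Z n) p| ≤
      4 * (lip p : ℝ) / 10 ^ (n + 1).factorial := by
    intro n
    refine (pv_lip (al_pos Z).le (al_le_one Z) (xx_nonneg Z n) (xx_le_one Z n) p).trans ?_
    calc (lip p : ℝ) * |al Z - xx Z n| ≤ lip p * (4 / 10 ^ (n + 1).factorial) :=
          mul_le_mul_of_nonneg_left (dist_le Z n) (Nat.cast_nonneg _)
      _ = _ := by ring
  constructor
  · intro h
    set v := pv (fun _ => al Z) p with hv'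
    obtain ⟨n, hn⟩ := exists_nat_gt (8 * (lip p : ℝ) / v)
    refine ⟨n, (cnd_iff Z n p).2 ?_⟩
    have h1 := hl n
    rw [abs_le] at h1
    have h2 : 2 * (4 * (lip p : ℝ) / 10 ^ (n + 1).factorial) < v := by
      rw [div_lt_iff₀ h] at hn
      have h3 : (n : ℝ) ≤ 10 ^ (n + 1).factorial := by
        have h4 : n ≤ 10 ^ (n + 1).factorial := by
          calc n ≤ n + 1 := Nat.le_succ n
            _ ≤ (n + 1).factorial := le_fact _
            _ ≤ 10 ^ (n + 1).factorial := (Nat.lt_pow_self (by norm_num)).le
        exact_mod_cast h4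
      have h5 : 8 * (lip p : ℝ) < v * 10 ^ (n + 1).factorial := by
        calc 8 * (lip p : ℝ) < n * v := hn
          _ ≤ 10 ^ (n + 1).factorial * v := mul_le_mul_of_nonneg_right h3 h.le
          _ = _ := by ring
      have h6 : 8 * (lip p : ℝ) / 10 ^ (n + 1).factorial < v := by
        rw [div_lt_iff₀ (by positivity)]
        exact h5
      calc _ = 8 * (lip p : ℝ) / 10 ^ (n + 1).factorial := by ring
        _ < v := h6
    linarith
  · rintro ⟨n, hn⟩
    rw [cnd_iff] at hn
    have h1 := hl n
    rw [abs_le] at h1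
    linarith

/-! ### computability -/

theorem prim_fact : Primrec Nat.factorial := by
  have h : Primrec fun n : ℕ => Nat.rec (motive := fun _ => ℕ) 1 (fun y ih => (y + 1) * ih) n :=
    Primrec.nat_rec' (f := fun n : ℕ => n) (g := fun _ => 1)
      (h := fun _ (q : ℕ × ℕ) => (q.1 + 1) * q.2) Primrec.id (Primrec.const 1)
      (Primrec.nat_mul.comp (Primrec.succ.comp (Primrec.fst.comp Primrec.snd))
        (Primrec.snd.comp Primrec.snd))
  refine h.of_eq fun n => ?_
  induction n with
  | zero => rfl
  | succ n ih => simp only [ih, Nat.factorial_succ]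

theorem prim_pow : Primrec₂ fun a b : ℕ => a ^ b := by
  have h : Primrec fun q : ℕ × ℕ => Nat.rec (motive := fun _ => ℕ) 1 (fun _ ih => ih * q.1) q.2 :=
    Primrec.nat_rec' (f := fun q : ℕ × ℕ => q.2) (g := fun _ => 1)
      (h := fun q (r : ℕ × ℕ) => r.2 * q.1) Primrec.snd (Primrec.const 1)
      (Primrec.nat_mul.comp (Primrec.snd.comp Primrec.snd) (Primrec.fst.comp Primrec.fst))
  refine h.of_eq fun q => ?_
  obtain ⟨a, b⟩ := q
  simp only
  induction b with
  | zero => rfl
  | succ n ih => simp only [ih, pow_succ]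

theorem comp_AA : Computable AA := by
  unfold AA
  refine (j10_comp_foldl (f := fun σ : List Bool => σ) (g := fun _ => ((0, 0) : ℕ × ℕ))
    (h := fun _ p => stp p.1 p.2) Computable.id (Computable.const _) ?_)
  have hs : Computable fun x : List Bool × ((ℕ × ℕ) × Bool) => x.2.1.1 :=
    Computable.fst.comp (Computable.fst.comp Computable.snd)
  have hA : Computable fun x : List Bool × ((ℕ × ℕ) × Bool) => x.2.1.2 :=
    Computable.snd.comp (Computable.fst.comp Computable.snd)
  have hb : Computable fun x : List Bool × ((ℕ × ℕ) × Bool) => x.2.2 :=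
    Computable.snd.comp Computable.snd
  have hs1 : Computable fun x : List Bool × ((ℕ × ℕ) × Bool) => x.2.1.1 + 1 :=
    Computable.succ.comp hs
  have hbn : Computable fun x : List Bool × ((ℕ × ℕ) × Bool) => x.2.2.toNat := by
    refine (Computable.cond hb (Computable.const 1) (Computable.const 0)).of_eq fun x => ?_
    cases x.2.2 <;> rfl
  refine Computable.pair hs1 ?_
  refine Primrec.nat_add.to_comp.comp (Primrec.nat_mul.to_comp.comp hA
    (prim_pow.to_comp.comp (Computable.const 10) (Primrec.nat_sub.to_comp.comp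
      (prim_fact.to_comp.comp hs1) (prim_fact.to_comp.comp hs)))) ?_
  exact Primrec.nat_add.to_comp.comp (Computable.const 2) hbn

theorem comp_dgr : Computable dgr := by
  unfold dgr
  refine (j10_comp_foldl (f := fun p : Pol => p) (g := fun _ => (0 : ℕ))
    (h := fun _ p => p.1 + p.2.2.length) Computable.id (Computable.const _) ?_)
  exact Primrec.nat_add.to_comp.comp (Computable.fst.comp Computable.snd)
    (Computable.list_length.comp (Computable.snd.comp (Computable.snd.comp Computable.snd)))

theorem comp_natAbs : Computable Int.natAbs := by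
  have h : Primrec fun z : ℤ => Int.natAbs z := by
    have h1 : ∀ z : ℤ, Int.natAbs z = if z < 0 then ((encode z) / 2 + 1) else (encode z) / 2 := by
      intro z
      cases z with
      | ofNat n =>
        have e : encode (Int.ofNat n) = 2 * n := rfl
        rw [e, if_neg (by exact Int.not_lt.2 (Int.natCast_nonneg n))]
        simp
      | negSucc n =>
        have e : encode (Int.negSucc n) = 2 * n + 1 := rfl
        rw [e, if_pos (Int.negSucc_lt_zero n)]
        simp only [Int.natAbs_negSucc]
        omega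
    refine Primrec.of_eq (f := fun z : ℤ => if encode z % 2 = 1 then (encode z) / 2 + 1
      else (encode z) / 2) ?_ ?_
    · exact Primrec.ite (Primrec.eq.comp (Primrec.nat_mod.comp Primrec.encode (Primrec.const 2))
        (Primrec.const 1))
        (Primrec.succ.comp (Primrec.nat_div.comp Primrec.encode (Primrec.const 2)))
        (Primrec.nat_div.comp Primrec.encode (Primrec.const 2))
    · intro z
      cases z with
      | ofNat n =>
        have e : encode (Int.ofNat n) = 2 * n := rfl
        rw [e, if_neg (by omega)]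
        simp
      | negSucc n =>
        have e : encode (Int.negSucc n) = 2 * n + 1 := rfl
        rw [e, if_pos (by omega)]
        simp only [Int.natAbs_negSucc]
        omega
  exact h.to_comp

theorem comp_lip : Computable lip := by
  unfold lip
  refine (j10_comp_foldl (f := fun p : Pol => p) (g := fun _ => (0 : ℕ))
    (h := fun _ p => p.1 + p.2.1.natAbs * p.2.2.length) Computable.id (Computable.const _) ?_)
  exact Primrec.nat_add.to_comp.comp (Computable.fst.comp Computable.snd)
    (Primrec.nat_mul.to_comp.comp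
      (comp_natAbs.comp (Computable.fst.comp (Computable.snd.comp Computable.snd)))
      (Computable.list_length.comp (Computable.snd.comp (Computable.snd.comp Computable.snd))))

theorem comp_natCast : Computable fun n : ℕ => (n : ℤ) := by
  have h : Primrec fun n : ℕ => (n : ℤ) := by
    have : ∀ n : ℕ, (n : ℤ) = Denumerable.ofNat ℤ (2 * n) := by
      intro n
      rw [eq_comm, Denumerable.ofNat_of_decode]
      have e : encode (n : ℤ) = 2 * n := rfl
      rw [← e, encodek]
    exact ((Primrec.ofNat ℤ).comp (Primrec.nat_mul.comp (Primrec.const 2) Primrec.id)).of_eq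
      fun n => (this n).symm
  exact h.to_comp

theorem comp_hv : Computable fun x : (ℕ × ℕ) × ℕ × Pol => hv x.1.1 x.1.2 x.2.1 x.2.2 := by
  unfold hv
  refine (j10_comp_foldl (f := fun x : (ℕ × ℕ) × ℕ × Pol => x.2.2) (g := fun _ => (0 : ℤ))
    (h := fun x p => p.1 + p.2.1 *
      ((x.1.1 ^ p.2.2.length * x.1.2 ^ (x.2.1 - p.2.2.length) : ℕ) : ℤ))
    (Computable.snd.comp Computable.snd) (Computable.const _) ?_)
  have hl : Computable fun x : ((ℕ × ℕ) × ℕ × Pol) × (ℤ × (ℤ × List ℕ)) => x.2.2.2.length :=
    Computable.list_length.comp (Computable.snd.comp (Computable.snd.comp Computable.snd))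
  refine prim_int_add.to_comp.comp (Computable.fst.comp Computable.snd)
    (prim_int_mul.to_comp.comp (Computable.fst.comp (Computable.snd.comp Computable.snd))
      (comp_natCast.comp (Primrec.nat_mul.to_comp.comp (prim_pow.to_comp.comp
        (Computable.fst.comp (Computable.fst.comp Computable.fst)) hl)
        (prim_pow.to_comp.comp (Computable.snd.comp (Computable.fst.comp Computable.fst))
          (Primrec.nat_sub.to_comp.comp
            (Computable.fst.comp (Computable.snd.comp Computable.fst)) hl)))))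

/-- powers -/
def pw (n : ℕ) : ℕ := 10 ^ n.factorial

theorem comp_pw : Computable pw := by
  unfold pw
  exact prim_pow.to_comp.comp (Computable.const 10) prim_fact.to_comp

/-- a repackaging -/
def hv' (x : (ℕ × ℕ) × ℕ × Pol) : ℤ := hv x.1.1 x.1.2 x.2.1 x.2.2

theorem comp_hv' : Computable hv' := comp_hv

/-- the left side of the condition -/
def cl (x : List Bool × Pol) : ℤ :=
  ((4 * lip x.2 * (pw x.1.length) ^ dgr x.2 : ℕ) : ℤ)

/-- the right side of the condition -/
def cr (x : List Bool × Pol) : ℤ :=
  hv' (((AA x.1).2, pw x.1.length), (dgr x.2, x.2)) * ((pw (x.1.length + 1) : ℕ) : ℤ)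

theorem comp_cl : Computable cl := by
  unfold cl
  have hQ : Computable fun x : List Bool × Pol => pw x.1.length :=
    comp_pw.comp (Computable.list_length.comp Computable.fst)
  have hD : Computable fun x : List Bool × Pol => dgr x.2 := comp_dgr.comp Computable.snd
  exact comp_natCast.comp (Primrec.nat_mul.to_comp.comp (Primrec.nat_mul.to_comp.comp
      (Computable.const 4) (comp_lip.comp Computable.snd)) (prim_pow.to_comp.comp hQ hD))

theorem comp_cr : Computable cr := by
  unfold cr
  have hQ : Computable fun x : List Bool × Pol => pw x.1.length :=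
    comp_pw.comp (Computable.list_length.comp Computable.fst)
  have hQ1 : Computable fun x : List Bool × Pol => pw (x.1.length + 1) :=
    comp_pw.comp (Computable.succ.comp (Computable.list_length.comp Computable.fst))
  have hD : Computable fun x : List Bool × Pol => dgr x.2 := comp_dgr.comp Computable.snd
  have hA : Computable fun x : List Bool × Pol => (AA x.1).2 :=
    Computable.snd.comp (comp_AA.comp Computable.fst)
  have h5 : Computable fun x : List Bool × Pol =>
      (((AA x.1).2, pw x.1.length), (dgr x.2, x.2)) :=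
    Computable.pair (Computable.pair hA hQ) (Computable.pair hD Computable.snd)
  have h6 : Computable fun x : List Bool × Pol =>
      hv' (((AA x.1).2, pw x.1.length), (dgr x.2, x.2)) := comp_hv'.comp h5
  have h7 : Computable fun x : List Bool × Pol => ((pw (x.1.length + 1) : ℕ) : ℤ) :=
    comp_natCast.comp hQ1
  exact prim_int_mul.to_comp.comp h6 h7

theorem cp_lt {α : Type*} [Primcodable α] {f g : α → ℤ} (hf : Computable f) (hg : Computable g) :
    ComputablePred fun x => f x < g x := by
  classical
  have h3 : Computable fun x => decide (g x ≤ f x) :=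
    (PrimrecRel.decide prim_int_le).to_comp.comp hg hf
  rw [ComputablePred.computable_iff]
  refine ⟨fun x => !decide (g x ≤ f x), (Primrec.not.to_comp).comp h3, ?_⟩
  funext x
  simp only [Bool.not_eq_true', decide_eq_false_iff_not, not_le]

theorem cp_cnd : ComputablePred fun x : List Bool × Pol => cnd x.1 x.2 := by
  have h := cp_lt comp_cl comp_cr
  have e : (fun x : List Bool × Pol => cnd x.1 x.2) = fun x => cl x < cr x := by
    funext x
    unfold cnd cl cr hv' pw
    rfl
  rw [e]
  exact h

theorem si_of_cp {α : Type*} [Primcodable α] {B : ℕ → Bool} {p : α → Prop}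
    (h : ComputablePred p) : SI B p := SI.of_s1 (S1.of_re h.to_re)

/-- positivity at the number is `Σ₁` in the sequence -/
theorem si_pos (Z : ℕ → Bool) : SI Z fun p : Pol => 0 < pv (fun _ => al Z) p := by
  have h : SI Z fun p : Pol => ∃ σ : List Bool, (∀ i < σ.length, Z i = σ.getD i false) ∧
      cnd σ p := by
    refine SI.ex (p := fun (p : Pol) (σ : List Bool) =>
      (∀ i < σ.length, Z i = σ.getD i false) ∧ cnd σ p) (SI.and ?_ ?_)
    · refine SI.all_lt (α := Pol × List Bool) (p := fun x i => Z i = x.2.getD i false)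
        (f := fun x => x.2.length) ?_ (Primrec.list_length.comp Primrec.snd)
      exact SI.query.comp (f := fun z : (Pol × List Bool) × ℕ => (z.2, z.1.2.getD z.2 false))
        (Primrec.snd.pair ((Primrec.list_getD false).comp (Primrec.snd.comp Primrec.fst)
          Primrec.snd))
    · exact (si_of_cp cp_cnd).comp (f := fun x : Pol × List Bool => (x.2, x.1))
        (Primrec.snd.pair Primrec.fst)
  refine h.of_eq fun p => ?_
  rw [pos_iff]
  constructor
  · rintro ⟨σ, h1, h2⟩
    refine ⟨σ.length, ?_⟩
    have : pre Z σ.length = σ := by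
      refine List.ext_getElem (by simp) fun i h5 h6 => ?_
      rw [getElem_pre, h1 i h6]
      simp [h6]
    rwa [this]
  · rintro ⟨n, hn⟩
    exact ⟨pre Z n, fun i hi => (pre_getD Z _ _ _ (by simpa using hi)).symm, hn⟩

end Pool.Agent.TH743.LF
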