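import Mathlib
import Pool.Agent.Helper227.RD.Jump

/-!
Definitions: computable fields, orderings of a field, low orderings, computable copies.
(`chi`, `TLe`, `WE` and `jump` are in `Pool.Agent.Helper227`: oracle computability is
`TuringReducible` of Mathlib.)
-/

set_option autoImplicit false

namespace Pool.Agent.TH743.LF

open Pool.Agent.Helper227

/-- A field whose underlying set is the set `D` of natural numbers is a computable field: the set
`D` is computable and addition and multiplication are (restrictions of) computable functions. -/
def CompField (D : Set ℕ) [Field D] : Prop :=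
  ComputablePred (fun n => n ∈ D) ∧
  (∃ f : ℕ → ℕ → ℕ, Computable₂ f ∧ ∀ a b : D, ((a + b : D) : ℕ) = f a b) ∧
  ∃ f : ℕ → ℕ → ℕ, Computable₂ f ∧ ∀ a b : D, ((a * b : D) : ℕ) = f a b

/-- `r` is (the strict order of) an ordering of the field `F`: a strict total order such that
`a < b` implies `a + c < b + c`, and `0 < a`, `0 < b` imply `0 < a * b`. -/
def IsOrdering {F : Type} [Field F] (r : F → F → Prop) : Prop :=
  (∀ a, ¬ r a a) ∧ (∀ a b c, r a b → r b c → r a c) ∧ (∀ a b, r a b ∨ a = b ∨ r b a) ∧
    (∀ a b c, r a b → r (a + c) (b + c)) ∧ ∀ a b, r 0 a → r 0 b → r 0 (a * b)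

open Classical in
/-- The set `{⟨a, b⟩ : a < b}` (as a characteristic function) attached to a relation on a set of
natural numbers. -/
noncomputable def ordSet {D : Set ℕ} (r : D → D → Prop) : ℕ → Bool := fun n =>
  decide (∃ a b : D, r a b ∧ n = Nat.pair a b)

/-- The set `X` is low: its jump is computable from the jump of the empty set. -/
def Low (X : ℕ → Bool) : Prop := TLe (jump X) (jump fun _ => false)

/-- The ordered field `(D, r)` has a computable copy: some ordered field `(E, s)` with computable
domain, computable field operations and computable order is isomorphic to it. -/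
def HasComputableCopy {D : Set ℕ} [Field D] (r : D → D → Prop) : Prop :=
  ∃ (E : Set ℕ) (_ : Field E) (s : E → E → Prop), CompField E ∧ IsOrdering s ∧
    Computable (ordSet s) ∧ ∃ φ : D ≃+* E, ∀ a b, r a b ↔ s (φ a) (φ b)

end Pool.Agent.TH743.LF
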