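import Mathlib
import Pool.Agent.TH743.LF.Defs
import Pool.Agent.TH743.LF.B
import Pool.Agent.Helper223.Numbering
import Pool.Agent.W952.LP.Low

/-!
A low ordering of a computable field such that the ordered field has no computable copy.
-/

set_option autoImplicit false

namespace Pool.Agent.TH743.LF

open Encodable
open Pool.Agent.Helper227
open Pool.Agent.H269R3.CF
open Pool.Agent.Helper566.FD (Pol wv pv mulP negP pv_append pv_negP pv_mulP comp_poly)

theorem ordSet_iff {D : Set ℕ} (r : D → D → Prop) (n : ℕ) :
    ordSet r n = true ↔ ∃ a b : D, r a b ∧ n = Nat.pair a b := by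
  simp [ordSet]

/-! ### decoding the sequence from a copy -/

/-- left side of the query -/
def qL (σ : List Bool) : ℕ :=
  (AA σ).2 * 10 ^ ((σ.length + 1).factorial - σ.length.factorial) + 3

theorem comp_qL : Computable qL := by
  unfold qL
  have hl : Computable fun σ : List Bool => σ.length.factorial :=
    prim_fact.to_comp.comp Computable.list_length
  have hl1 : Computable fun σ : List Bool => (σ.length + 1).factorial :=
    prim_fact.to_comp.comp (Computable.succ.comp Computable.list_length)
  have h1 : Computable fun σ : List Bool =>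
      10 ^ ((σ.length + 1).factorial - σ.length.factorial) :=
    prim_pow.to_comp.comp (Computable.const 10) (Primrec.nat_sub.to_comp.comp hl1 hl)
  have h2 : Computable fun σ : List Bool =>
      (AA σ).2 * 10 ^ ((σ.length + 1).factorial - σ.length.factorial) :=
    Primrec.nat_mul.to_comp.comp (Computable.snd.comp comp_AA) h1
  exact Primrec.nat_add.to_comp.comp h2 (Computable.const 3)

theorem query_iff (Z : ℕ → Bool) (n : ℕ) :
    Z n = true ↔ ((qL (pre Z n) : ℕ) : ℝ) < ((pw (n + 1) : ℕ) : ℝ) * al Z := by
  rw [decode_iff]
  unfold qL xx pw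
  rw [length_pre]
  push_cast
  have h : (10 : ℝ) ^ (n + 1).factorial =
      10 ^ ((n + 1).factorial - n.factorial) * 10 ^ n.factorial := by
    rw [← pow_add, Nat.sub_add_cancel (fact_le n)]
  have h1 : (0 : ℝ) < 10 ^ (n + 1).factorial := by positivity
  have h2 : (0 : ℝ) < 10 ^ n.factorial := by positivity
  have e : ((AA (pre Z n)).2 : ℝ) / 10 ^ n.factorial + 3 / 10 ^ (n + 1).factorial =
      ((AA (pre Z n)).2 * 10 ^ ((n + 1).factorial - n.factorial) + 3) /
        10 ^ (n + 1).factorial := by
    rw [h]
    have h3 : (10 : ℝ) ^ ((n + 1).factorial - n.factorial) ≠ 0 := by positivity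
    field_simp
  rw [e, div_lt_iff₀ h1, mul_comm (al Z)]

theorem Z_le {D : Type} [Field D] (ψ : D →+* ℝ) (Z : ℕ → Bool) (t : D) (ht : ψ t = al Z)
    (E : Set ℕ) [Field E] (hE : CompField E) (s : E → E → Prop) (φ : D ≃+* E)
    (hφ : ∀ a b, ψ a < ψ b ↔ s (φ a) (φ b)) : TLe Z (ordSet s) := by
  obtain ⟨-, ⟨f, hf, hf'⟩, g, hg, hg'⟩ := hE
  -- codes of the natural numbers
  let c : ℕ → ℕ := fun m => Nat.rec ((0 : E) : ℕ) (fun _ v => f v ((1 : E) : ℕ)) m
  have hc : Computable c :=
    Computable.nat_rec (f := fun m : ℕ => m) (g := fun _ => ((0 : E) : ℕ))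
      (h := fun _ (p : ℕ × ℕ) => f p.2 ((1 : E) : ℕ)) Computable.id (Computable.const _)
      (hf.comp (Computable.snd.comp Computable.snd) (Computable.const _))
  have hcv : ∀ m : ℕ, (((m : E)) : ℕ) = c m := by
    intro m
    induction m with
    | zero => simp [c]
    | succ m ih =>
      show _ = f (c m) ((1 : E) : ℕ)
      rw [← ih, ← hf']
      push_cast
      rfl
  -- the queries
  let k : E := φ t
  let q : List Bool → ℕ := fun σ => Nat.pair (c (qL σ)) (g (c (pw (σ.length + 1))) (k : ℕ))
  have hq : Computable q := by
    refine Primrec₂.natPair.to_comp.comp (hc.comp comp_qL) ?_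
    exact hg.comp (hc.comp (comp_pw.comp (Computable.succ.comp Computable.list_length)))
      (Computable.const _)
  have hqv : ∀ n, ordSet s (q (pre Z n)) = Z n := by
    intro n
    have e1 : q (pre Z n) = Nat.pair (((qL (pre Z n) : ℕ) : E) : ℕ)
        ((((pw (n + 1) : ℕ) : E) * k : E) : ℕ) := by
      simp only [q]
      rw [hcv, hg', hcv, length_pre]
    have e2 : ordSet s (q (pre Z n)) = true ↔
        s ((qL (pre Z n) : ℕ) : E) (((pw (n + 1) : ℕ) : E) * k) := by
      rw [ordSet_iff]
      constructor
      · rintro ⟨a, b, hab, he⟩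
        rw [e1, Nat.pair_eq_pair] at he
        rw [Subtype.ext he.1, Subtype.ext he.2]
        exact hab
      · intro h
        exact ⟨_, _, h, e1⟩
    have e3 : s ((qL (pre Z n) : ℕ) : E) (((pw (n + 1) : ℕ) : E) * k) ↔ Z n = true := by
      rw [query_iff]
      have h := hφ ((qL (pre Z n) : ℕ) : D) (((pw (n + 1) : ℕ) : D) * t)
      simp only [map_mul, map_natCast, ht] at h
      exact h.symm
    rw [Bool.eq_iff_iff, e2, e3]
  -- the definition of the sequence
  rw [tLe_iff_SI]
  have h : SI (ordSet s) fun x : ℕ × Bool => ∃ σ : List Bool,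
      (σ.length = x.1 + 1 ∧ σ.getD x.1 false = x.2) ∧
        ∀ i < x.1 + 1, ordSet s (q (σ.take i)) = σ.getD i false := by
    refine SI.ex (p := fun (x : ℕ × Bool) (σ : List Bool) =>
      (σ.length = x.1 + 1 ∧ σ.getD x.1 false = x.2) ∧
        ∀ i < x.1 + 1, ordSet s (q (σ.take i)) = σ.getD i false) (SI.and (SI.of_prim ?_) ?_)
    · refine PrimrecPred.and ?_ ?_
      · exact Primrec.eq.comp (Primrec.list_length.comp Primrec.snd)
          (Primrec.succ.comp (Primrec.fst.comp Primrec.fst))
      · exact Primrec.eq.comp ((Primrec.list_getD false).comp Primrec.snd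
          (Primrec.fst.comp Primrec.fst)) (Primrec.snd.comp Primrec.fst)
    · refine SI.all_lt (α := (ℕ × Bool) × List Bool)
        (p := fun x i => ordSet s (q (x.2.take i)) = x.2.getD i false)
        (f := fun x => x.1.1 + 1) ?_ (Primrec.succ.comp (Primrec.fst.comp Primrec.fst))
      refine SI.comp_computable (f := fun z : ((ℕ × Bool) × List Bool) × ℕ =>
        (q (z.1.2.take z.2), z.1.2.getD z.2 false)) (SI.query (B := ordSet s)) ?_
      refine Computable.pair (hq.comp ?_) ?_
      · have ht : Primrec fun z : ((ℕ × Bool) × List Bool) × ℕ => z.1.2.take z.2 := by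
          have h1 : Primrec fun z : List Bool × ℕ => z.1.take z.2 := by
            have h2 : Primrec fun z : List Bool × ℕ => (List.range z.2).filterMap fun i => z.1[i]? :=
              Primrec.listFilterMap (Primrec.list_range.comp Primrec.snd)
                (Primrec.list_getElem?.comp (Primrec.fst.comp Primrec.fst) Primrec.snd)
            refine h2.of_eq fun z => ?_
            obtain ⟨l, n⟩ := z
            simp only
            induction n with
            | zero => simp
            | succ n ih =>
              rw [List.range_succ, List.filterMap_append, ih, List.take_add_one]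
              rcases h : l[n]? with _ | b <;> simp [h]
          exact h1.comp ((Primrec.snd.comp Primrec.fst).pair Primrec.snd)
        exact ht.to_comp
      · exact ((Primrec.list_getD false).comp (Primrec.snd.comp Primrec.fst)
          Primrec.snd).to_comp
  refine h.of_eq fun x => ?_
  obtain ⟨n, b⟩ := x
  simp only
  constructor
  · rintro ⟨σ, ⟨h1, h2⟩, h3⟩
    have key : ∀ i, i ≤ n + 1 → σ.take i = pre Z i := by
      intro i
      induction i with
      | zero => intro _; simp [pre]
      | succ i ih =>
        intro hi
        have h4 := ih (by omega)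
        have h5 := h3 i (by omega)
        rw [h4, hqv] at h5
        rw [pre_succ, List.take_add_one, h4, h5]
        have h6 : i < σ.length := by omega
        simp [h6]
    have h7 := h3 n (by omega)
    rw [key n (by omega), hqv, h2] at h7
    exact h7
  · intro hb
    refine ⟨pre Z (n + 1), ⟨by simp, ?_⟩, ?_⟩
    · rw [pre_getD Z _ _ _ (by omega)]
      exact hb
    · intro i hi
      have : (pre Z (n + 1)).take i = pre Z i := by
        refine List.ext_getElem (by simp; omega) fun j h5 h6 => ?_
        rw [List.getElem_take, getElem_pre, getElem_pre]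
      rw [this, hqv, pre_getD Z _ _ _ hi]

end Pool.Agent.TH743.LF
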