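import Mathlib
import Pool.Agent.TH743.LF.C

/-!
A low ordering of a computable field such that the ordered field has no computable copy.
-/

set_option autoImplicit false

namespace Pool.Agent.TH743.LF

open Encodable
open Pool.Agent.Helper227
open Pool.Agent.H269R3.CF
open Pool.Agent.Helper566.FD (Pol wv pv mulP negP pv_append pv_negP pv_mulP comp_poly)
open Pool.Agent.Helper566.FD.J10 (j10_comp_foldl j10_comp_all)

/-- value of a notation -/
noncomputable def vl (Z : ℕ → Bool) (a : Nn) : ℝ := cN (fun _ => al Z) a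

theorem vl_add (Z : ℕ → Bool) (a b : Nn) : vl Z (addN z0 a b) = vl Z a + vl Z b :=
  cN_add z0 _ (z0_iff' (transc Z)) a b

theorem vl_mul (Z : ℕ → Bool) (a b : Nn) : vl Z (mulN a b) = vl Z a * vl Z b := cN_mul _ a b

theorem vl_neg (Z : ℕ → Bool) (a : Nn) : vl Z (negN a) = -vl Z a := cN_neg _ a

theorem vl_eq_iff (Z : ℕ → Bool) (a b : Nn) : eqN z0 a b = true ↔ vl Z a = vl Z b :=
  eqN_iff z0 _ (z0_iff' (transc Z)) a b

theorem vl_congr (Y Z : ℕ → Bool) {a b : Nn} (h : vl Y a = vl Y b) : vl Z a = vl Z b :=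
  (vl_eq_iff Z a b).1 ((vl_eq_iff Y a b).2 h)

/-- the polynomial whose sign decides `vl a < vl b` -/
def dP (a b : Nn) : Pol := mulP (addN z0 b (negN a)).1 (addN z0 b (negN a)).2

theorem lt_iff (Z : ℕ → Bool) (a b : Nn) : vl Z a < vl Z b ↔ 0 < pv (fun _ => al Z) (dP a b) := by
  have h1 : vl Z (addN z0 b (negN a)) = vl Z b - vl Z a := by
    rw [vl_add, vl_neg]; ring
  have h2 : 0 < vl Z (addN z0 b (negN a)) ↔ 0 < pv (fun _ => al Z) (dP a b) := by
    unfold dP
    rw [pv_mulP]
    unfold vl cN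
    rcases lt_trichotomy (pv (fun _ => al Z) (addN z0 b (negN a)).2) 0 with h | h | h
    · constructor
      · intro h3
        have h4 : pv (fun _ => al Z) (addN z0 b (negN a)).1 < 0 := by
          by_contra h5
          exact absurd h3 (not_lt.2 (div_nonpos_of_nonneg_of_nonpos (not_lt.1 h5) h.le))
        exact mul_pos_of_neg_of_neg h4 h
      · intro h3
        have h4 : pv (fun _ => al Z) (addN z0 b (negN a)).1 < 0 := by
          by_contra h5
          exact absurd h3 (not_lt.2 (mul_nonpos_of_nonneg_of_nonpos (not_lt.1 h5) h.le))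
        exact div_pos_of_neg_of_neg h4 h
    · rw [h]; simp
    · rw [div_pos_iff_of_pos_right h, mul_pos_iff_of_pos_right h]
  rw [← h2, h1, sub_pos]

theorem comp_dP : Computable₂ dP := by
  have h : Computable fun q : Nn × Nn => addN z0 q.2 (negN q.1) :=
    (comp_addN z0 comp_z0).comp Computable.snd (comp_negN.comp Computable.fst)
  exact comp_poly.1.comp (Computable.fst.comp h) (Computable.snd.comp h)

/-- the zero sequence -/
def Z0 : ℕ → Bool := fun _ => false

/-- A computable field such that every infinite binary sequence `Z` gives an embedding in the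
reals, whose restriction to the notations is evaluation at `al Z`. -/
theorem exists_field : ∃ (u : ℕ → Nn) (_ : Field (Set.univ : Set ℕ)) (t : (Set.univ : Set ℕ)),
    Computable u ∧ CompField (Set.univ : Set ℕ) ∧
    ∀ Z : ℕ → Bool, ∃ ψ : (Set.univ : Set ℕ) →+* ℝ, (∀ n, ψ n = vl Z (u n)) ∧ ψ t = al Z := by
  let K : Subfield ℝ := FF z0 (fun _ => al Z0) (z0_iff' (transc Z0))
  let c : Nn → K := fun a => ⟨cN (fun _ => al Z0) a, ⟨a, rfl⟩⟩
  have : Infinite K :=
    Infinite.of_injective (fun n : ℕ => (n : K)) Nat.cast_injective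
  obtain ⟨e, u, v, hu, hv, h1, h2, h3, h4, h5, h6⟩ :=
    Pool.Agent.Helper223.exists_field_numbering (F := K) c
      (fun ⟨x, a, hx⟩ => ⟨a, Subtype.ext hx⟩) (addN z0) mulN negN invN (comp_addN z0 comp_z0)
      comp_mulN comp_negN comp_invN
      (fun a b => Subtype.ext (vl_add Z0 a b)) (fun a b => Subtype.ext (vl_mul Z0 a b))
      (fun a => Subtype.ext (vl_neg Z0 a)) (fun a => Subtype.ext (cN_inv _ a))
      (eqN z0) (comp_eqN z0 comp_z0)
      (fun a b => (vl_eq_iff Z0 a b).trans ⟨fun h => Subtype.ext h, fun h => congrArg Subtype.val h⟩)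
  let E0 : (Set.univ : Set ℕ) ≃ K := (Equiv.Set.univ ℕ).trans e
  letI inst : Field (Set.univ : Set ℕ) := E0.field
  have hE0 : ∀ n : (Set.univ : Set ℕ), E0 n = c (u n) := fun n => h1 n
  have hvl : ∀ n : (Set.univ : Set ℕ), ((E0 n : K) : ℝ) = vl Z0 (u n) := fun n =>
    congrArg Subtype.val (hE0 n)
  have hadd : ∀ a b : (Set.univ : Set ℕ), E0 (a + b) = E0 a + E0 b := by
    intro a b
    rw [Equiv.add_def E0 a b]
    exact E0.apply_symm_apply _
  have hmul : ∀ a b : (Set.univ : Set ℕ), E0 (a * b) = E0 a * E0 b := by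
    intro a b
    rw [Equiv.mul_def E0 a b]
    exact E0.apply_symm_apply _
  have hone : E0 1 = 1 := by
    rw [Equiv.one_def E0]
    exact E0.apply_symm_apply _
  have hzero : E0 0 = 0 := by
    rw [Equiv.zero_def E0]
    exact E0.apply_symm_apply _
  refine ⟨u, inst, E0.symm (c ([(1, [0])], [(1, [])])), hu, ⟨?_, ?_, ?_⟩, ?_⟩
  · exact ComputablePred.computable_iff.2 ⟨fun _ => true, Computable.const _, by
      funext n; simp⟩
  · refine ⟨fun a b => e.symm (e a + e b), h3, fun a b => ?_⟩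
    rw [Equiv.add_def E0 a b]
    rfl
  · refine ⟨fun a b => e.symm (e a * e b), h4, fun a b => ?_⟩
    rw [Equiv.mul_def E0 a b]
    rfl
  · intro Z
    refine ⟨{ toFun := fun n => vl Z (u n)
              map_one' := ?_
              map_mul' := ?_
              map_zero' := ?_
              map_add' := ?_ }, fun n => rfl, ?_⟩
    · have h : vl Z (u ((1 : (Set.univ : Set ℕ)) : ℕ)) = vl Z ([(1, [])], [(1, [])]) := by
        refine vl_congr Z0 Z ?_
        rw [← hvl, hone]
        simp [vl, cN, pv, wv]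
      rw [h]
      simp [vl, cN, pv, wv]
    · intro a b
      show vl Z (u ((a * b : (Set.univ : Set ℕ)) : ℕ)) = vl Z (u a) * vl Z (u b)
      rw [← vl_mul]
      refine vl_congr Z0 Z ?_
      rw [← hvl, hmul, vl_mul, ← hvl, ← hvl]
      rfl
    · have h : vl Z (u ((0 : (Set.univ : Set ℕ)) : ℕ)) = vl Z ([], []) := by
        refine vl_congr Z0 Z ?_
        rw [← hvl, hzero]
        simp [vl, cN, pv]
      show vl Z (u ((0 : (Set.univ : Set ℕ)) : ℕ)) = 0
      rw [h]
      simp [vl, cN, pv]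
    · intro a b
      show vl Z (u ((a + b : (Set.univ : Set ℕ)) : ℕ)) = vl Z (u a) + vl Z (u b)
      rw [← vl_add]
      refine vl_congr Z0 Z ?_
      rw [← hvl, hadd, vl_add, ← hvl, ← hvl]
      rfl
    · show vl Z (u ((E0.symm (c ([(1, [0])], [(1, [])]))) : ℕ)) = al Z
      have h : vl Z (u ((E0.symm (c ([(1, [0])], [(1, [])]))) : ℕ)) =
          vl Z ([(1, [0])], [(1, [])]) := by
        refine vl_congr Z0 Z ?_
        rw [← hvl, E0.apply_symm_apply]
        rfl
      rw [h]
      exact cN_single (fun _ => al Z) 0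

theorem isOrdering_of_hom {F : Type} [Field F] (ψ : F →+* ℝ) :
    IsOrdering fun a b : F => ψ a < ψ b := by
  refine ⟨fun a => lt_irrefl _, fun a b c h1 h2 => h1.trans h2, fun a b => ?_, fun a b c h => ?_,
    fun a b h1 h2 => ?_⟩
  · rcases lt_trichotomy (ψ a) (ψ b) with h | h | h
    · exact Or.inl h
    · exact Or.inr (Or.inl (ψ.injective h))
    · exact Or.inr (Or.inr h)
  · show ψ (a + c) < ψ (b + c)
    rw [map_add, map_add]
    have h' : ψ a < ψ b := h
    linarith
  · have h1' : ψ 0 < ψ a := h1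
    have h2' : ψ 0 < ψ b := h2
    rw [map_zero] at h1' h2'
    show ψ 0 < ψ (a * b)
    rw [map_zero, map_mul]
    exact mul_pos h1' h2'

theorem ordSet_le (Z : ℕ → Bool) (u : ℕ → Nn) (hu : Computable u) [Field (Set.univ : Set ℕ)]
    (ψ : (Set.univ : Set ℕ) →+* ℝ) (hψ : ∀ n, ψ n = vl Z (u n)) :
    TLe (ordSet fun a b : (Set.univ : Set ℕ) => ψ a < ψ b) Z := by
  rw [tLe_iff_SI]
  have hu1 : Computable fun n : ℕ => n.unpair.1 := (Primrec.fst.comp Primrec.unpair).to_comp
  have hu2 : Computable fun n : ℕ => n.unpair.2 := (Primrec.snd.comp Primrec.unpair).to_comp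
  have hlt : SI Z fun x : ℕ × Bool => 0 < pv (fun _ => al Z) (dP (u x.1.unpair.1) (u x.1.unpair.2)) :=
    SI.comp_computable (f := fun x : ℕ × Bool => dP (u x.1.unpair.1) (u x.1.unpair.2)) (si_pos Z)
      (comp_dP.comp (hu.comp (hu1.comp Computable.fst)) (hu.comp (hu2.comp Computable.fst)))
  have hgt : SI Z fun x : ℕ × Bool => 0 < pv (fun _ => al Z) (dP (u x.1.unpair.2) (u x.1.unpair.1)) :=
    SI.comp_computable (f := fun x : ℕ × Bool => dP (u x.1.unpair.2) (u x.1.unpair.1)) (si_pos Z)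
      (comp_dP.comp (hu.comp (hu2.comp Computable.fst)) (hu.comp (hu1.comp Computable.fst)))
  have heq : SI Z fun x : ℕ × Bool => x.1.unpair.1 = x.1.unpair.2 :=
    SI.of_prim (Primrec.eq.comp (Primrec.fst.comp (Primrec.unpair.comp Primrec.fst))
      (Primrec.snd.comp (Primrec.unpair.comp Primrec.fst)))
  have ht : SI Z fun x : ℕ × Bool => x.2 = true :=
    SI.of_prim (Primrec.eq.comp Primrec.snd (Primrec.const true))
  have hf : SI Z fun x : ℕ × Bool => x.2 = false :=
    SI.of_prim (Primrec.eq.comp Primrec.snd (Primrec.const false))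
  refine (SI.or (SI.and ht hlt) (SI.and hf (SI.or heq hgt))).of_eq fun x => ?_
  obtain ⟨n, b⟩ := x
  simp only
  have h1 : ordSet (fun a b : (Set.univ : Set ℕ) => ψ a < ψ b) n = true ↔
      vl Z (u n.unpair.1) < vl Z (u n.unpair.2) := by
    rw [ordSet_iff]
    constructor
    · rintro ⟨a, b, h, rfl⟩
      rw [Nat.unpair_pair, ← hψ, ← hψ]
      exact h
    · intro h
      exact ⟨⟨n.unpair.1, trivial⟩, ⟨n.unpair.2, trivial⟩, by
        rw [hψ, hψ]; exact h, (Nat.pair_unpair n).symm⟩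
  rw [← lt_iff, ← lt_iff]
  cases b
  · have h2 : ordSet (fun a b : (Set.univ : Set ℕ) => ψ a < ψ b) n = false ↔
        ¬ vl Z (u n.unpair.1) < vl Z (u n.unpair.2) := by
      rw [← h1, Bool.not_eq_true]
    rw [h2]
    simp only [Bool.false_eq_true, false_and, false_or, true_and]
    have h3 : n.unpair.1 = n.unpair.2 ↔ vl Z (u n.unpair.1) = vl Z (u n.unpair.2) := by
      constructor
      · intro h; rw [h]
      · intro h
        have h4 : ψ ⟨n.unpair.1, trivial⟩ = ψ ⟨n.unpair.2, trivial⟩ := by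
          rw [hψ, hψ]; exact h
        exact congrArg Subtype.val (ψ.injective h4)
    rw [h3, not_lt, le_iff_lt_or_eq]
    constructor
    · rintro (h | h)
      · exact Or.inr h.symm
      · exact Or.inl h
    · rintro (h | h)
      · exact Or.inr h
      · exact Or.inl h.symm
  · rw [h1]
    simp

/-- The main theorem. -/
theorem main : ∃ (D : Set ℕ) (_ : Field D), CompField D ∧
    (∀ Z : ℕ → Bool, ¬ Computable Z → ∃ r : D → D → Prop, IsOrdering r ∧
      TLe (ordSet r) Z ∧ TLe Z (ordSet r) ∧ ¬ HasComputableCopy r) ∧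
    ∃ r : D → D → Prop, IsOrdering r ∧ Low (ordSet r) ∧ ¬ HasComputableCopy r := by
  obtain ⟨u, inst, t, hu, hC, H⟩ := exists_field
  have key : ∀ Z : ℕ → Bool, ¬ Computable Z → ∃ r : ↥(Set.univ : Set ℕ) → ↥(Set.univ : Set ℕ) → Prop,
      IsOrdering r ∧ TLe (ordSet r) Z ∧ TLe Z (ordSet r) ∧ ¬ HasComputableCopy r := by
    intro Z hZ
    obtain ⟨ψ, hψ, ht⟩ := H Z
    refine ⟨fun a b => ψ a < ψ b, isOrdering_of_hom ψ, ordSet_le Z u hu ψ hψ,
      Z_le ψ Z t ht Set.univ hC _ (RingEquiv.refl _) fun a b => Iff.rfl, ?_⟩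
    rintro ⟨E, instE, s, hE, -, hs, φ, hφ⟩
    have h1 := Z_le ψ Z t ht E hE s φ hφ
    exact hZ (computable_iff_tLe.2 (h1.trans (computable_iff_tLe.1 hs)))
  refine ⟨Set.univ, inst, hC, key, ?_⟩
  obtain ⟨Z, -, h1, h2⟩ := Pool.Agent.W952.LP.low (fun _ => false)
  have hZ : ¬ Computable Z := fun h => h1 (computable_iff_tLe.1 h)
  obtain ⟨r, hr, hr1, -, hr3⟩ := key Z hZ
  exact ⟨r, hr, (TLe.jump hr1).trans h2, hr3⟩

end Pool.Agent.TH743.LF
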